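import Pool.Agent.helper98.RPQ.SpecR

/-!
# RPQ (MP_07c750_an), row CBE: the cube
-/

set_option autoImplicit false

open scoped MatrixGroups ContDiff Topology UpperHalfPlane ComplexConjugate ENNReal
open UpperHalfPlane MeasureTheory Filter Set

namespace Pool.Agent.RPQ

open Pool.Agent.RS
open Pool.Agent.MS (BA BB st pf gk Dk amk)

noncomputable section

/-- the uniform measure on `[-1, 1]` -/
def CBE_m : Measure ℝ := (2 : ENNReal)⁻¹ • (volume : Measure ℝ).restrict (Icc (-1) 1)

instance CBE_prob : IsProbabilityMeasure CBE_m := by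
  constructor
  unfold CBE_m
  rw [Measure.smul_apply, Measure.restrict_apply MeasurableSet.univ, univ_inter, Real.volume_Icc, smul_eq_mul]
  norm_num
  exact ENNReal.inv_mul_cancel (by norm_num) (by norm_num)

/-- **Row CBE** -/
theorem CBE_proof : CBE_stmt := by
  intro J
  have h1 : cube J = Set.pi univ (fun _ : Fin J => Icc (-1 : ℝ) 1) := by
    ext ξ
    simp only [cube, mem_ofPred_eq, Set.mem_pi, mem_univ, true_imp_iff, mem_Icc, abs_le]
  have h2 : volume (cube J) = 2 ^ J := by
    rw [h1, volume_pi_pi]
    simp only [Real.volume_Icc, Finset.prod_const, Finset.card_univ, Fintype.card_fin]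
    norm_num
  refine ⟨?_, h2, ?_⟩
  · rw [h1]
    exact MeasurableSet.univ_pi fun _ => measurableSet_Icc
  · rw [h2, h1]
    have h3 : (volume : Measure (Fin J → ℝ)).restrict (Set.pi univ (fun _ : Fin J => Icc (-1 : ℝ) 1)) =
        Measure.pi (fun _ : Fin J => (volume : Measure ℝ).restrict (Icc (-1) 1)) := by
      rw [volume_pi]
      exact Measure.restrict_pi_pi _ _
    rw [h3]
    have hP : PJ J = Measure.pi fun _ : Fin J => CBE_m := rfl
    apply Measure.pi_eq
    intro s hs
    rw [hP, Measure.smul_apply, Measure.pi_pi]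
    unfold CBE_m
    simp only [Measure.smul_apply, smul_eq_mul]
    rw [Finset.prod_mul_distrib, Finset.prod_const, Finset.card_univ, Fintype.card_fin, ← mul_assoc, ← mul_pow,
      ENNReal.mul_inv_cancel (by norm_num) (by norm_num), one_pow, one_mul]

end

end Pool.Agent.RPQ
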