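import Pool.Agent.helper98.RPQ.SpecR

/-!
# RPQ (MP_07c750_an), row PAR: the parameters
-/

set_option autoImplicit false

open scoped MatrixGroups ContDiff Topology UpperHalfPlane ComplexConjugate ENNReal
open UpperHalfPlane MeasureTheory Filter Set

namespace Pool.Agent.RPQ

open Pool.Agent.RS
open Pool.Agent.MS (BA BB st pf gk Dk amk)

noncomputable section

theorem PAR_log (c : ℝ) (hc : 0 < c) : ∀ᶠ x : ℝ in atTop, Real.log x ≤ c * x := by
  have h := Real.isLittleO_log_id_atTop.bound hc
  filter_upwards [h, eventually_ge_atTop (1 : ℝ)] with x hx hx1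
  simp only [id, Real.norm_eq_abs] at hx
  rw [abs_of_nonneg (Real.log_nonneg hx1), abs_of_nonneg (by linarith)] at hx
  exact hx

/-- **Row PAR** -/
theorem PAR_proof : PAR_stmt := by
  intro N η M1 C' ρ10 a hN hη hM1 hC' hρ10 ha
  have hN1 : (1 : ℝ) ≤ N := by exact_mod_cast hN
  have ha0 : 0 < a := by linarith
  have h1 : ∀ᶠ x : ℝ in atTop, Real.log x ≤ η / (4 * a) * x := PAR_log _ (by positivity)
  have h2 : ∀ᶠ x : ℝ in atTop, x ^ (-a) ≤ ρ10 := (tendsto_rpow_neg_atTop ha0).eventually (eventually_le_nhds hρ10)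
  have h3 : ∀ᶠ x : ℝ in atTop, 8 * (11 * M1 + 2 * C' * N) ≤ x := eventually_ge_atTop _
  have h4 : ∀ᶠ x : ℝ in atTop, Real.log x ≤ 1 / 96 * x := PAR_log _ (by norm_num)
  have h5 : ∀ᶠ x : ℝ in atTop, 2 ≤ x := eventually_ge_atTop _
  have h6 := Real.tendsto_log_atTop.eventually (h1.and (h2.and (h3.and (h4.and h5))))
  obtain ⟨R1, hR1⟩ := Filter.eventually_atTop.mp h6
  refine ⟨max 3 R1, le_max_left _ _, fun R ρ hR hρ hρ' => ?_⟩
  obtain ⟨g1, g2, g3, g4, g5⟩ := hR1 R ((le_max_right _ _).trans hR)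
  have hR0 : 0 < R := by
    have := (le_max_left _ _).trans hR
    linarith
  obtain ⟨x, hx⟩ : ∃ x : ℝ, x = Real.log R := ⟨_, rfl⟩
  rw [← hx] at g1 g2 g3 g4 g5 hρ'
  have hRpow : ∀ y : ℝ, R ^ y = Real.exp (x * y) := fun y => by rw [Real.rpow_def_of_pos hR0, hx]
  have hx0 : 0 < x := by linarith
  have hlx : 0 < Real.log x := Real.log_pos (by linarith)
  have hxpow : ∀ y : ℝ, x ^ y = Real.exp (Real.log x * y) := fun y => Real.rpow_def_of_pos hx0 y
  refine ⟨⌈10 * M1 * x⌉₊, ?_, ?_, ?_, ?_⟩
  · have e1 : (9 / 10 : ℝ) ≤ Real.exp (-(1 / 10)) := by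
      have := Real.add_one_le_exp (-(1 / 10) : ℝ)
      linarith
    have e2 : ((9 : ℝ) / 10) ^ ⌈10 * M1 * x⌉₊ ≤ Real.exp (-(1 / 10)) ^ ⌈10 * M1 * x⌉₊ := pow_le_pow_left₀ (by norm_num) e1 _
    refine e2.trans ?_
    rw [← Real.exp_nat_mul, hRpow]
    apply Real.exp_le_exp.mpr
    have e3 := Nat.le_ceil (10 * M1 * x)
    linarith
  · rw [hRpow, ← hx, hxpow]
    apply Real.exp_le_exp.mpr
    have e1 : Real.log x * a ≤ η / 4 * x := by
      have := mul_le_mul_of_nonneg_right g1 ha0.le
      have e : η / (4 * a) * x * a = η / 4 * x := by field_simp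
      linarith
    linarith
  · rw [← hx]
    exact g2
  · intro N' hN' hN'N
    rw [← hx]
    have hN'1 : (1 : ℝ) ≤ N' := by exact_mod_cast hN'
    have hN'N' : (N' : ℝ) ≤ N := by exact_mod_cast hN'N
    have htau : tau R = x / 8 := by rw [hx]; rfl
    rw [htau]
    have hb : C' * (N' * (x / 8) + 1) ≤ 2 * C' * N * x := by
      have e1 : (N' : ℝ) * (x / 8) ≤ N * x := mul_le_mul hN'N' (by linarith) (by linarith) (by linarith)
      have e2 : (1 : ℝ) ≤ N * x := by
        have := mul_le_mul hN1 (show (1 : ℝ) ≤ x by linarith) zero_le_one (by linarith)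
        linarith
      have e3 : (N' : ℝ) * (x / 8) + 1 ≤ 2 * (N * x) := by linarith
      have e4 := mul_le_mul_of_nonneg_left e3 (show (0 : ℝ) ≤ C' by linarith)
      linarith
    have hb1 : 1 ≤ C' * (N' * (x / 8) + 1) := by
      have e1 : (1 : ℝ) ≤ N' * (x / 8) + 1 := by
        have : (0 : ℝ) ≤ N' * (x / 8) := by positivity
        linarith
      have := mul_le_mul hC' e1 zero_le_one (by linarith)
      linarith
    constructor
    · have hxa : 0 < x ^ a := Real.rpow_pos_of_pos hx0 a
      have e1 : C' * (N' * (x / 8) + 1) / x ^ (-a) = C' * (N' * (x / 8) + 1) * x ^ a := by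
        rw [Real.rpow_neg hx0.le, div_inv_eq_mul]
      have e2 : x ^ (-a) / (8 * ρ) ≥ x ^ (a + 2) / 8 := by
        have e3 : x ^ (-a) / (8 * ρ) ≥ x ^ (-a) / (8 * x ^ (-(2 * a + 2))) := by
          apply div_le_div_of_nonneg_left (Real.rpow_pos_of_pos hx0 _).le (by positivity)
          linarith
        have e4 : x ^ (-a) / (8 * x ^ (-(2 * a + 2))) = x ^ (a + 2) / 8 := by
          have e5 : x ^ (a + 2) = x ^ (-a) / x ^ (-(2 * a + 2)) := by
            rw [← Real.rpow_sub hx0]
            congr 1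
            ring
          rw [e5, div_div, mul_comm]
        rw [e4] at e3
        exact e3
      have e6 : x ^ (a + 2) = x ^ a * x * x := by
        rw [Real.rpow_add hx0]
        have : x ^ (2 : ℝ) = x * x := by
          rw [Real.rpow_two]
          ring
        rw [this]
        ring
      have e7 : ((⌈10 * M1 * x⌉₊ : ℕ) : ℝ) ≤ 11 * M1 * x := by
        have e8 := Nat.ceil_lt_add_one (show (0 : ℝ) ≤ 10 * M1 * x by positivity)
        have e9 : (1 : ℝ) ≤ M1 * x := by
          have := mul_le_mul hM1 (show (1 : ℝ) ≤ x by linarith) zero_le_one (by linarith)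
          linarith
        linarith
      have e10 : 1 ≤ x ^ a := Real.one_le_rpow (by linarith) ha0.le
      have e11 : (11 * M1 * x : ℝ) ≤ 11 * M1 * x * x ^ a := le_mul_of_one_le_right (by positivity) e10
      have e12 : C' * (N' * (x / 8) + 1) * x ^ a ≤ 2 * C' * N * x * x ^ a := mul_le_mul_of_nonneg_right hb hxa.le
      have e13 : (8 * (11 * M1 + 2 * C' * N)) * (x ^ a * x) ≤ x * (x ^ a * x) := mul_le_mul_of_nonneg_right g3 (by positivity)
      rw [e1]
      refine le_trans ?_ e2
      rw [e6]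
      linarith
    · have e1 : Real.log (1 / x ^ (-a)) = a * Real.log x := by
        rw [Real.rpow_neg hx0.le, one_div, inv_inv, Real.log_rpow hx0]
      rw [e1, hRpow]
      have e2 : 0 ≤ N' * (x / 8) / (a * Real.log x / 2) + 3 := by positivity
      have e3 : C' * (N' * (x / 8) + 1) ≤ x ^ (2 : ℝ) := by
        refine hb.trans ?_
        rw [Real.rpow_two, pow_two]
        have e4 : 2 * C' * N ≤ x := by
          have : (0 : ℝ) ≤ 2 * C' * N := by positivity
          have : (0 : ℝ) ≤ M1 := by linarith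
          linarith
        exact mul_le_mul_of_nonneg_right e4 hx0.le
      refine (Real.rpow_le_rpow (by linarith) e3 e2).trans ?_
      rw [← Real.rpow_mul hx0.le, hxpow]
      apply Real.exp_le_exp.mpr
      have e5 : Real.log x * (2 * (N' * (x / 8) / (a * Real.log x / 2) + 3)) = N' * x / (2 * a) + 6 * Real.log x := by
        field_simp
        ring
      rw [e5]
      have e6 : (N' : ℝ) * x / (2 * a) ≤ x / 16 := by
        rw [div_le_div_iff₀ (by positivity) (by norm_num)]
        have e7 : 8 * (N' : ℝ) ≤ a := by linarith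
        have := mul_le_mul_of_nonneg_right e7 hx0.le
        linarith
      linarith

end

end Pool.Agent.RPQ
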