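import Pool.Agent.helper98.RPQ.SpecR

/-!
# RPQ (MP_07c750_an), row SNC: characteristic functions of the uniform distribution
-/

set_option autoImplicit false

open scoped MatrixGroups ContDiff Topology UpperHalfPlane ComplexConjugate ENNReal
open UpperHalfPlane MeasureTheory Filter Set

namespace Pool.Agent.RPQ

open Pool.Agent.RS
open Pool.Agent.MS (BA BB st pf gk Dk amk)

noncomputable section

/-- the uniform measure on `[-1, 1]` -/
def SNC_m : Measure ℝ := (2 : ENNReal)⁻¹ • (volume : Measure ℝ).restrict (Icc (-1) 1)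

instance SNC_prob : IsProbabilityMeasure SNC_m := by
  constructor
  unfold SNC_m
  rw [Measure.smul_apply, Measure.restrict_apply MeasurableSet.univ, univ_inter, Real.volume_Icc, smul_eq_mul]
  norm_num
  exact ENNReal.inv_mul_cancel (by norm_num) (by norm_num)

theorem SNC_int (x : ℝ) (hx : x ≠ 0) : ∫ s, Complex.exp (((s * x : ℝ) : ℂ) * Complex.I) ∂SNC_m = ((Real.sin x / x : ℝ) : ℂ) := by
  unfold SNC_m
  rw [integral_smul_measure, integral_Icc_eq_integral_Ioc, ← intervalIntegral.integral_of_le (by norm_num)]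
  have h1 : ∀ s : ℝ, Complex.exp (((s * x : ℝ) : ℂ) * Complex.I) = Complex.exp ((x * Complex.I) * s) := fun s => by
    congr 1
    push_cast
    ring
  simp_rw [h1]
  have hxI : (x : ℂ) * Complex.I ≠ 0 := mul_ne_zero (by exact_mod_cast hx) Complex.I_ne_zero
  rw [integral_exp_mul_complex hxI]
  have h2 : Complex.sin x = (Complex.exp (-x * Complex.I) - Complex.exp (x * Complex.I)) * Complex.I / 2 := rfl
  have e1 : (2 : ENNReal)⁻¹.toReal = (1 / 2 : ℝ) := by norm_num
  rw [e1]
  push_cast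
  rw [h2, Complex.real_smul]
  have hx' : (x : ℂ) ≠ 0 := by exact_mod_cast hx
  field_simp
  push_cast
  rw [Complex.I_sq]
  ring

theorem SNC_one (x : ℝ) : ‖∫ s, Complex.exp (((s * x : ℝ) : ℂ) * Complex.I) ∂SNC_m‖ ≤ 1 := by
  have h := norm_integral_le_of_norm_le_const (μ := SNC_m) (C := 1)
    (f := fun s : ℝ => Complex.exp (((s * x : ℝ) : ℂ) * Complex.I)) (ae_of_all _ fun s => by
      rw [Complex.norm_exp_ofReal_mul_I])
  simpa using h

theorem SNC_sin {x : ℝ} (hx : 1 ≤ x) : |Real.sin x| ≤ 9 / 10 * x := by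
  rcases le_or_gt (10 / 9) x with h | h
  · exact (Real.abs_sin_le_one x).trans (by linarith)
  · have h0 : 0 < Real.sin x := Real.sin_pos_of_pos_of_lt_pi (by linarith) (by linarith [Real.pi_gt_three])
    rw [abs_of_pos h0]
    have e : Real.sin x = Real.sin 1 * Real.cos (x - 1) + Real.cos 1 * Real.sin (x - 1) := by
      rw [← Real.sin_add]
      congr 1
      ring
    have h1 : Real.sin 1 ≤ 89 / 100 := by
      have h2 := Real.sin_bound (x := 1) (by norm_num)
      rw [abs_le] at h2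
      have h3 := h2.2
      norm_num at h3
      linarith
    have h1' : 0 ≤ Real.sin 1 := (Real.sin_pos_of_pos_of_lt_pi one_pos (by linarith [Real.pi_gt_three])).le
    have h2 := Real.cos_one_le
    have h2' : 0 ≤ Real.cos 1 := Real.cos_one_pos.le
    have h3 : Real.cos (x - 1) ≤ 1 := Real.cos_le_one _
    have h4 : Real.sin (x - 1) ≤ x - 1 := Real.sin_le (by linarith)
    rw [e]
    have h5 : Real.sin 1 * Real.cos (x - 1) ≤ Real.sin 1 := mul_le_of_le_one_right h1' h3
    have h6 : Real.cos 1 * Real.sin (x - 1) ≤ Real.cos 1 * (x - 1) := mul_le_mul_of_nonneg_left h4 h2'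
    have h7 : Real.cos 1 * (x - 1) ≤ 5 / 9 * (x - 1) := mul_le_mul_of_nonneg_right h2 (by linarith)
    linarith

theorem SNC_nine {x : ℝ} (hx : 1 ≤ |x|) : ‖∫ s, Complex.exp (((s * x : ℝ) : ℂ) * Complex.I) ∂SNC_m‖ ≤ 9 / 10 := by
  have hx0 : x ≠ 0 := by
    rintro rfl
    rw [abs_zero] at hx
    linarith
  rw [SNC_int x hx0, Complex.norm_real, Real.norm_eq_abs, abs_div, div_le_iff₀ (by linarith)]
  have h1 : |Real.sin x| = |Real.sin (|x|)| := by
    rcases abs_choice x with h | h
    · rw [h]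
    · rw [h, Real.sin_neg, abs_neg]
  rw [h1]
  exact SNC_sin hx

theorem SNC_prod (J : ℕ) (x : Fin J → ℝ) : ∫ ξ, Complex.exp (((∑ j, ξ j * x j : ℝ) : ℂ) * Complex.I) ∂PJ J =
    ∏ j, ∫ s, Complex.exp (((s * x j : ℝ) : ℂ) * Complex.I) ∂SNC_m := by
  have h1 : ∀ ξ : Fin J → ℝ, Complex.exp (((∑ j, ξ j * x j : ℝ) : ℂ) * Complex.I) =
      ∏ j, Complex.exp (((ξ j * x j : ℝ) : ℂ) * Complex.I) := fun ξ => by
    rw [← Complex.exp_sum, Complex.ofReal_sum, Finset.sum_mul]
  simp_rw [h1]
  show ∫ ξ, ∏ j, Complex.exp (((ξ j * x j : ℝ) : ℂ) * Complex.I) ∂(Measure.pi fun _ : Fin J => SNC_m) = _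
  exact integral_fintype_prod_eq_prod (fun (j : Fin J) (s : ℝ) => Complex.exp (((s * x j : ℝ) : ℂ) * Complex.I))

/-- **Row SNC** -/
theorem SNC_proof : SNC_stmt := by
  intro J
  have hJ : PJ J = Measure.pi fun _ : Fin J => SNC_m := rfl
  have key : ∀ (x : Fin J → ℝ) (n : ℕ), n ≤ {j : Fin J | 1 ≤ |x j|}.ncard →
      ‖∫ ξ, Complex.exp (((∑ j, ξ j * x j : ℝ) : ℂ) * Complex.I) ∂PJ J‖ ≤ (9 / 10) ^ n := by
    classical
    intro x n hn
    rw [SNC_prod, norm_prod]
    have h1 : ∏ j, ‖∫ s, Complex.exp (((s * x j : ℝ) : ℂ) * Complex.I) ∂SNC_m‖ ≤ ∏ j : Fin J, (if 1 ≤ |x j| then (9 / 10 : ℝ) else 1) := by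
      apply Finset.prod_le_prod
      · intro j _
        exact norm_nonneg _
      · intro j _
        split_ifs with h
        · exact SNC_nine h
        · exact SNC_one _
    refine h1.trans ?_
    rw [Finset.prod_ite, Finset.prod_const, Finset.prod_const_one, mul_one]
    apply pow_le_pow_of_le_one (by norm_num) (by norm_num)
    rw [Set.ncard_eq_toFinset_card'] at hn
    refine hn.trans (le_of_eq ?_)
    congr 1
    ext j
    simp
  refine ⟨?_, ?_, ?_, key⟩
  · rw [hJ]
    infer_instance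
  · rw [ae_all_iff]
    intro j
    have h1 : ∀ᵐ s ∂SNC_m, |s| ≤ 1 := by
      unfold SNC_m
      refine Measure.ae_smul_measure ?_ _
      filter_upwards [ae_restrict_mem measurableSet_Icc] with s hs
      exact abs_le.mpr hs
    have h2 : Tendsto (Function.eval j) (ae (Measure.pi fun _ : Fin J => SNC_m)) (ae SNC_m) :=
      Measure.tendsto_eval_ae_ae
    exact h2.eventually h1
  · intro x
    have := key x 0 (Nat.zero_le _)
    simpa using this

end

end Pool.Agent.RPQ
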